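import Pool.Agent.W708.OC.Sem

set_option autoImplicit false

namespace Pool.Agent.W599.SCD

open Pool.Agent.W708.OC

theorem good_of_frozen (D : Fin 4 → Finset (Finset (Finset (Fin 6))))
    (h1 : ∀ i, (∀ C ∈ D i, IsChain (· ⊆ ·) (C : Set (Finset (Fin 6))) ∧
      ∃ a : ℕ, 2 * a ≤ 6 ∧ C.image Finset.card = Finset.Icc a (6 - a)) ∧
      ∀ s : Finset (Fin 6), ∃! C, C ∈ D i ∧ s ∈ C)
    (h2 : ∀ i j, i ≠ j → ∀ C ∈ D i, ∀ E ∈ D j,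
      (∅ ∈ C → ∅ ∈ E → C ∩ E ⊆ {∅, Finset.univ}) ∧
      (¬(∅ ∈ C ∧ ∅ ∈ E) → (C ∩ E).card ≤ 1)) :
    Good (fun d s t => ∃ C ∈ D d, s ∈ C ∧ t ∈ C) := by
  refine ⟨?_, ?_, ?_, ?_, ?_, ?_⟩
  · rintro d s t ⟨C, hC, hs, ht⟩
    exact ⟨C, hC, ht, hs⟩
  · rintro d s t u ⟨C, hC, hs, ht⟩ ⟨E, hE, ht', hu⟩
    obtain ⟨F, -, hF⟩ := (h1 d).2 t
    have e1 := hF C ⟨hC, ht⟩
    have e2 := hF E ⟨hE, ht'⟩
    subst e1
    rw [e2] at hu
    exact ⟨C, hC, hs, hu⟩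
  · rintro d s t ⟨C, hC, hs, ht⟩
    exact ((h1 d).1 C hC).1.total (Finset.mem_coe.2 hs) (Finset.mem_coe.2 ht)
  · intro d s k hk1 hk2
    obtain ⟨C, ⟨hC, hs⟩, -⟩ := (h1 d).2 s
    obtain ⟨-, a, ha, hI⟩ := (h1 d).1 C hC
    have hs' : s.card ∈ Finset.Icc a (6 - a) := by
      rw [← hI]; exact Finset.mem_image_of_mem _ hs
    rw [Finset.mem_Icc] at hs'
    have hk : k ∈ C.image Finset.card := by
      rw [hI, Finset.mem_Icc]; omega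
    obtain ⟨t, ht, hc⟩ := Finset.mem_image.1 hk
    exact ⟨t, hc, C, hC, hs, ht⟩
  · intro d s k hk1 hk2
    obtain ⟨C, ⟨hC, hs⟩, -⟩ := (h1 d).2 s
    obtain ⟨-, a, ha, hI⟩ := (h1 d).1 C hC
    have hs' : s.card ∈ Finset.Icc a (6 - a) := by
      rw [← hI]; exact Finset.mem_image_of_mem _ hs
    rw [Finset.mem_Icc] at hs'
    have hk : k ∈ C.image Finset.card := by
      rw [hI, Finset.mem_Icc]; omega
    obtain ⟨t, ht, hc⟩ := Finset.mem_image.1 hk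
    exact ⟨t, hc, C, hC, hs, ht⟩
  · rintro d e s t hde hst h0 h6 ⟨C, hC, hs, ht⟩ ⟨E, hE, hs', ht'⟩
    obtain ⟨k1, k2⟩ := h2 d e hde C hC E hE
    by_cases hh : ∅ ∈ C ∧ ∅ ∈ E
    · have := k1 hh.1 hh.2 (Finset.mem_inter.2 ⟨hs, hs'⟩)
      rw [Finset.mem_insert, Finset.mem_singleton] at this
      rcases this with rfl | rfl
      · exact h0 Finset.card_empty
      · exact h6 (by rw [Finset.card_univ, Fintype.card_fin])
    · exact hst (Finset.card_le_one.1 (k2 hh) s (Finset.mem_inter.2 ⟨hs, hs'⟩) t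
        (Finset.mem_inter.2 ⟨ht, ht'⟩))

end Pool.Agent.W599.SCD
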