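import Pool.Agent.W708.OC.Sem

set_option autoImplicit false
set_option maxRecDepth 100000

namespace Pool.Agent.W599.SCD

open Pool.Agent.W708.OC

def nall (n : ℕ) (f : ℕ → Bool) : Bool := Nat.rec true (fun k s => and (f k) s) n

theorem nall_true {n : ℕ} {f : ℕ → Bool} (h : nall n f = true) : ∀ k < n, f k = true := by
  induction n with
  | zero => intro k hk; omega
  | succ n ih =>
    have h' : (f n && nall n f) = true := h
    rw [Bool.and_eq_true] at h'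
    intro k hk
    rcases Nat.lt_succ_iff_lt_or_eq.mp hk with hk | rfl
    · exact ih h'.2 k hk
    · exact h'.1

/-- exchange the bits `a` and `b` -/
def swm (a b m : ℕ) : ℕ :=
  Nat.xor m (Nat.mul (Nat.land (Nat.xor (Nat.shiftRight m a) (Nat.shiftRight m b)) 1)
    (Nat.add (Nat.pow 2 a) (Nat.pow 2 b)))

theorem swm_bit : ∀ a b : Fin 6, a < b → ∀ m < 64, ∀ i : Fin 6,
    (swm a b m).testBit i = m.testBit (Equiv.swap a b i) := by
  decide +kernel

theorem S_swm (a b : Fin 6) (hab : a < b) (m : ℕ) (hm : m < 64) :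
    S (swm a b m) = (S m).map (Equiv.swap a b).toEmbedding := by
  ext i
  simp only [S, Finset.mem_filter, Finset.mem_univ, true_and, Finset.mem_map_equiv]
  rw [swm_bit a b hab m hm i]
  rfl

theorem cpl_bit : ∀ m < 64, ∀ i : Fin 6, (63 - m).testBit i = ! (m.testBit i) := by
  decide +kernel

theorem S_cpl (m : ℕ) (hm : m < 64) : S (63 - m) = (S m)ᶜ := by
  ext i
  simp only [S, Finset.mem_filter, Finset.mem_univ, true_and, Finset.mem_compl]
  rw [cpl_bit m hm i]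
  simp

theorem dX_lt (q : ℕ) : dX q < 64 := by
  have : dX q = (Nat.shiftRight DEC (Nat.mul 18 q)) &&& 63 := rfl
  rw [this]
  exact lt_of_le_of_lt Nat.and_le_right (by norm_num)

theorem dT_lt (q : ℕ) : dT q < 64 := by
  have : dT q = (Nat.shiftRight DEC (Nat.add (Nat.mul 18 q) 6)) &&& 63 := rfl
  rw [this]
  exact lt_of_le_of_lt Nat.and_le_right (by norm_num)

theorem dY_lt (q : ℕ) : dY q < 64 := by
  have : dY q = (Nat.shiftRight DEC (Nat.add (Nat.mul 18 q) 12)) &&& 63 := rfl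
  rw [this]
  exact lt_of_le_of_lt Nat.and_le_right (by norm_num)

/-- check of a generator acting as the exchange of `a` and `b` in `Fin 6` -/
def ck1 (g a b : ℕ) : Bool := nall 720 fun o =>
  and (Nat.ble (A1 g o) 719) (and (Nat.beq (Nat.mod (A1 g o) 4) (Nat.mod o 4))
    (and (Nat.beq (dX (Nat.div (A1 g o) 4)) (swm a b (dX (Nat.div o 4))))
    (and (Nat.beq (dT (Nat.div (A1 g o) 4)) (swm a b (dT (Nat.div o 4))))
      (Nat.beq (dY (Nat.div (A1 g o) 4)) (swm a b (dY (Nat.div o 4)))))))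

def sw (a b i : ℕ) : ℕ := cond (Nat.beq i a) b (cond (Nat.beq i b) a i)

/-- check of a generator acting on the colours -/
def ck2 (g a b : ℕ) : Bool := nall 720 fun o =>
  and (Nat.ble (A1 g o) 719) (and (Nat.beq (Nat.mod (A1 g o) 4) (sw a b (Nat.mod o 4)))
    (Nat.beq (Nat.div (A1 g o) 4) (Nat.div o 4)))

/-- check of the complement -/
def ck3 (g : ℕ) : Bool := nall 720 fun o =>
  and (Nat.ble (A1 g o) 719) (and (Nat.beq (Nat.mod (A1 g o) 4) (Nat.mod o 4))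
    (and (Nat.beq (dX (Nat.div (A1 g o) 4)) (Nat.sub 63 (dY (Nat.div o 4))))
    (and (Nat.beq (dT (Nat.div (A1 g o) 4)) (Nat.sub 63 (dT (Nat.div o 4))))
      (Nat.beq (dY (Nat.div (A1 g o) 4)) (Nat.sub 63 (dX (Nat.div o 4)))))))

/-- check of the identity -/
def ck0 (g : ℕ) : Bool := nall 720 fun o => Nat.beq (A1 g o) o

theorem c1 : (ck1 1 0 1 && ck1 2 0 2 && ck1 3 0 3 && ck1 4 0 4 && ck1 5 0 5 && ck1 6 1 2 &&
    ck1 7 1 3 && ck1 8 1 4 && ck1 9 1 5 && ck1 10 2 3 && ck1 11 2 4 && ck1 12 2 5 &&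
    ck1 13 3 4 && ck1 14 3 5 && ck1 15 4 5) = true := by decide +kernel

theorem c2 : (ck2 16 0 1 && ck2 17 0 2 && ck2 18 0 3 && ck2 19 1 2 && ck2 20 1 3 &&
    ck2 21 2 3) = true := by decide +kernel

theorem c3 : ck3 22 = true := by decide +kernel

theorem c0 : (ck0 0 && ck0 23 && ck0 24 && ck0 25 && ck0 26 && ck0 27 && ck0 28 && ck0 29 &&
    ck0 30 && ck0 31) = true := by decide +kernel

/-- the selections are pulled back by a symmetry preserving the inclusions -/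
theorem pull (g : ℕ) (σ : Fin 4 → Fin 4) (τ : F6 ≃ F6) (hσ : Function.Injective σ)
    (hm : ∀ s t, τ s ⊆ τ t ↔ s ⊆ t) (hc : ∀ s, (τ s).card = s.card)
    (h : ∀ o < 720, A1 g o < 720 ∧ col (A1 g o) = σ (col o) ∧
      S (dX (A1 g o / 4)) = τ (S (dX (o / 4))) ∧ S (dT (A1 g o / 4)) = τ (S (dT (o / 4))) ∧
      S (dY (A1 g o / 4)) = τ (S (dY (o / 4)))) (P : ℕ → Prop) (hP : V P) :
    V (fun o => o < 720 ∧ P (A1 g o)) := by
  obtain ⟨R, hR, hPR⟩ := hP
  refine ⟨fun d s t => R (σ d) (τ s) (τ t), ⟨?_, ?_, ?_, ?_, ?_, ?_⟩, ?_⟩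
  · intro d s t hst
    exact hR.symm _ _ _ hst
  · intro d s t u h1 h2
    exact hR.trans _ _ _ _ h1 h2
  · intro d s t hst
    rcases hR.comp _ _ _ hst with h1 | h1
    · exact Or.inl ((hm _ _).1 h1)
    · exact Or.inr ((hm _ _).1 h1)
  · intro d s k h1 h2
    obtain ⟨t, ht, hRt⟩ := hR.up (σ d) (τ s) k (by rw [hc]; exact h1) (by rw [hc]; exact h2)
    refine ⟨τ.symm t, ?_, ?_⟩
    · rw [← hc, Equiv.apply_symm_apply]; exact ht
    · show R (σ d) (τ s) (τ (τ.symm t))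
      rw [Equiv.apply_symm_apply]; exact hRt
  · intro d s k h1 h2
    obtain ⟨t, ht, hRt⟩ := hR.down (σ d) (τ s) k (by rw [hc]; exact h1) (by rw [hc]; exact h2)
    refine ⟨τ.symm t, ?_, ?_⟩
    · rw [← hc, Equiv.apply_symm_apply]; exact ht
    · show R (σ d) (τ s) (τ (τ.symm t))
      rw [Equiv.apply_symm_apply]; exact hRt
  · intro d e s t hde hst h0 h6 h1 h2
    exact hR.orth (σ d) (σ e) (τ s) (τ t) (fun hh => hde (hσ hh)) (fun hh => hst (τ.injective hh))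
      (by rw [hc]; exact h0) (by rw [hc]; exact h6) h1 h2
  · intro o
    constructor
    · rintro ⟨ho, hPo⟩
      obtain ⟨g1, g2, g3, g4, g5⟩ := h o ho
      obtain ⟨-, p2, p3⟩ := (hPR _).1 hPo
      rw [g2, g3, g4] at p2
      rw [g2, g4, g5] at p3
      exact ⟨ho, p2, p3⟩
    · rintro ⟨ho, p2, p3⟩
      obtain ⟨g1, g2, g3, g4, g5⟩ := h o ho
      refine ⟨ho, (hPR _).2 ⟨g1, ?_, ?_⟩⟩
      · rw [g2, g3, g4]; exact p2
      · rw [g2, g4, g5]; exact p3

/-- the selections are pulled back by a symmetry reversing the inclusions -/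
theorem pullc (g : ℕ) (σ : Fin 4 → Fin 4) (τ : F6 ≃ F6) (hσ : Function.Injective σ)
    (hm : ∀ s t, τ s ⊆ τ t ↔ t ⊆ s) (hc : ∀ s, (τ s).card + s.card = 6)
    (h : ∀ o < 720, A1 g o < 720 ∧ col (A1 g o) = σ (col o) ∧
      S (dX (A1 g o / 4)) = τ (S (dY (o / 4))) ∧ S (dT (A1 g o / 4)) = τ (S (dT (o / 4))) ∧
      S (dY (A1 g o / 4)) = τ (S (dX (o / 4)))) (P : ℕ → Prop) (hP : V P) :
    V (fun o => o < 720 ∧ P (A1 g o)) := by
  obtain ⟨R, hR, hPR⟩ := hP
  refine ⟨fun d s t => R (σ d) (τ s) (τ t), ⟨?_, ?_, ?_, ?_, ?_, ?_⟩, ?_⟩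
  · intro d s t hst
    exact hR.symm _ _ _ hst
  · intro d s t u h1 h2
    exact hR.trans _ _ _ _ h1 h2
  · intro d s t hst
    rcases hR.comp _ _ _ hst with h1 | h1
    · exact Or.inr ((hm _ _).1 h1)
    · exact Or.inl ((hm _ _).1 h1)
  · intro d s k h1 h2
    have hs := hc s
    obtain ⟨t, ht, hRt⟩ := hR.down (σ d) (τ s) (6 - k) (by omega) (by omega)
    refine ⟨τ.symm t, ?_, ?_⟩
    · have := hc (τ.symm t)
      rw [Equiv.apply_symm_apply] at this
      omega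
    · show R (σ d) (τ s) (τ (τ.symm t))
      rw [Equiv.apply_symm_apply]; exact hRt
  · intro d s k h1 h2
    have hs := hc s
    by_cases hk : k ≤ 6
    · obtain ⟨t, ht, hRt⟩ := hR.up (σ d) (τ s) (6 - k) (by omega) (by omega)
      refine ⟨τ.symm t, ?_, ?_⟩
      · have := hc (τ.symm t)
        rw [Equiv.apply_symm_apply] at this
        omega
      · show R (σ d) (τ s) (τ (τ.symm t))
        rw [Equiv.apply_symm_apply]; exact hRt
    · omega
  · intro d e s t hde hst h0 h6 h1 h2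
    have hs := hc s
    exact hR.orth (σ d) (σ e) (τ s) (τ t) (fun hh => hde (hσ hh)) (fun hh => hst (τ.injective hh))
      (by omega) (by omega) h1 h2
  · intro o
    constructor
    · rintro ⟨ho, hPo⟩
      obtain ⟨g1, g2, g3, g4, g5⟩ := h o ho
      obtain ⟨-, p2, p3⟩ := (hPR _).1 hPo
      rw [g2, g3, g4] at p2
      rw [g2, g4, g5] at p3
      exact ⟨ho, hR.symm _ _ _ p3, hR.symm _ _ _ p2⟩
    · rintro ⟨ho, p2, p3⟩
      obtain ⟨g1, g2, g3, g4, g5⟩ := h o ho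
      refine ⟨ho, (hPR _).2 ⟨g1, ?_, ?_⟩⟩
      · rw [g2, g3, g4]; exact hR.symm _ _ _ p3
      · rw [g2, g4, g5]; exact hR.symm _ _ _ p2

theorem col_eq {o p : ℕ} (h : Nat.beq (Nat.mod o 4) (Nat.mod p 4) = true) : col o = col p := by
  have h' : o % 4 = p % 4 := Nat.eq_of_beq_eq_true h
  exact Fin.ext h'

theorem ble_lt {x : ℕ} (h : Nat.ble x 719 = true) : x < 720 := by
  have := Nat.le_of_ble_eq_true h
  omega

/-- the action of a permutation on the sets -/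
def mapE (e : Equiv.Perm (Fin 6)) : F6 ≃ F6 := e.finsetCongr

theorem k1 (g : ℕ) (a b : Fin 6) (hab : a < b) (h : ck1 g a b = true) :
    (∀ P : ℕ → Prop, V P → V (fun o => o < 720 ∧ P (A1 g o))) ∧ ∀ o < 720, A1 g o < 720 := by
  have H : ∀ o < 720, A1 g o < 720 ∧ col (A1 g o) = id (col o) ∧
      S (dX (A1 g o / 4)) = mapE (Equiv.swap a b) (S (dX (o / 4))) ∧
      S (dT (A1 g o / 4)) = mapE (Equiv.swap a b) (S (dT (o / 4))) ∧
      S (dY (A1 g o / 4)) = mapE (Equiv.swap a b) (S (dY (o / 4))) := by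
    intro o ho
    have := nall_true h o ho
    simp only [Bool.and_eq_true] at this
    obtain ⟨g1, g2, g3, g4, g5⟩ := this
    refine ⟨ble_lt g1, col_eq g2, ?_, ?_, ?_⟩
    · exact (congrArg S (Nat.eq_of_beq_eq_true g3)).trans (S_swm a b hab _ (dX_lt _))
    · exact (congrArg S (Nat.eq_of_beq_eq_true g4)).trans (S_swm a b hab _ (dT_lt _))
    · exact (congrArg S (Nat.eq_of_beq_eq_true g5)).trans (S_swm a b hab _ (dY_lt _))
  exact ⟨pull g id (mapE (Equiv.swap a b)) Function.injective_id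
    (fun s t => Finset.map_subset_map) (fun s => Finset.card_map _) H, fun o ho => (H o ho).1⟩

theorem sw_eq : ∀ a b : Fin 4, ∀ i < 4, sw a b i = (Equiv.swap a b (col i)).val := by
  decide +kernel

theorem col_mod (o : ℕ) : col (o % 4) = col o := Fin.ext (Nat.mod_mod o 4)

theorem k2 (g : ℕ) (a b : Fin 4) (h : ck2 g a b = true) :
    (∀ P : ℕ → Prop, V P → V (fun o => o < 720 ∧ P (A1 g o))) ∧ ∀ o < 720, A1 g o < 720 := by
  have H : ∀ o < 720, A1 g o < 720 ∧ col (A1 g o) = (Equiv.swap a b) (col o) ∧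
      S (dX (A1 g o / 4)) = Equiv.refl F6 (S (dX (o / 4))) ∧
      S (dT (A1 g o / 4)) = Equiv.refl F6 (S (dT (o / 4))) ∧
      S (dY (A1 g o / 4)) = Equiv.refl F6 (S (dY (o / 4))) := by
    intro o ho
    have := nall_true h o ho
    simp only [Bool.and_eq_true] at this
    obtain ⟨g1, g2, g3⟩ := this
    have e3 : A1 g o / 4 = o / 4 := Nat.eq_of_beq_eq_true g3
    have e2 : A1 g o % 4 = sw a b (o % 4) := Nat.eq_of_beq_eq_true g2
    refine ⟨ble_lt g1, ?_, ?_, ?_, ?_⟩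
    · apply Fin.ext
      show A1 g o % 4 = _
      rw [e2, sw_eq a b (o % 4) (Nat.mod_lt _ (by norm_num)), col_mod]
    · rw [e3]; rfl
    · rw [e3]; rfl
    · rw [e3]; rfl
  exact ⟨pull g (Equiv.swap a b) (Equiv.refl F6) (Equiv.injective _)
    (fun s t => Iff.rfl) (fun s => rfl) H, fun o ho => (H o ho).1⟩

/-- complement -/
def cplE : F6 ≃ F6 where
  toFun s := sᶜ
  invFun s := sᶜ
  left_inv s := compl_compl s
  right_inv s := compl_compl s

theorem k3 (g : ℕ) (h : ck3 g = true) :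
    (∀ P : ℕ → Prop, V P → V (fun o => o < 720 ∧ P (A1 g o))) ∧ ∀ o < 720, A1 g o < 720 := by
  have H : ∀ o < 720, A1 g o < 720 ∧ col (A1 g o) = id (col o) ∧
      S (dX (A1 g o / 4)) = cplE (S (dY (o / 4))) ∧
      S (dT (A1 g o / 4)) = cplE (S (dT (o / 4))) ∧
      S (dY (A1 g o / 4)) = cplE (S (dX (o / 4))) := by
    intro o ho
    have := nall_true h o ho
    simp only [Bool.and_eq_true] at this
    obtain ⟨g1, g2, g3, g4, g5⟩ := this
    refine ⟨ble_lt g1, col_eq g2, ?_, ?_, ?_⟩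
    · exact (congrArg S (Nat.eq_of_beq_eq_true g3)).trans (S_cpl _ (dY_lt _))
    · exact (congrArg S (Nat.eq_of_beq_eq_true g4)).trans (S_cpl _ (dT_lt _))
    · exact (congrArg S (Nat.eq_of_beq_eq_true g5)).trans (S_cpl _ (dX_lt _))
  refine ⟨pullc g id cplE Function.injective_id
    (fun s t => Finset.compl_subset_compl) (fun s => ?_) H, fun o ho => (H o ho).1⟩
  have := Finset.card_compl_add_card s
  rw [Fintype.card_fin] at this
  exact this

theorem k0 (g : ℕ) (h : ck0 g = true) :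
    (∀ P : ℕ → Prop, V P → V (fun o => o < 720 ∧ P (A1 g o))) ∧ ∀ o < 720, A1 g o < 720 := by
  have H : ∀ o < 720, A1 g o = o := fun o ho => Nat.eq_of_beq_eq_true (nall_true h o ho)
  refine ⟨pull g id (Equiv.refl F6) Function.injective_id
    (fun s t => Iff.rfl) (fun s => rfl) (fun o ho => ?_), fun o ho => by rw [H o ho]; exact ho⟩
  rw [H o ho]
  exact ⟨ho, rfl, rfl, rfl, rfl⟩

theorem all (g : ℕ) (hg : g < 32) :
    (∀ P : ℕ → Prop, V P → V (fun o => o < 720 ∧ P (A1 g o))) ∧ ∀ o < 720, A1 g o < 720 := by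
  have h1 := c1
  have h2 := c2
  have h0 := c0
  simp only [Bool.and_eq_true] at h1 h2 h0
  obtain ⟨⟨⟨⟨⟨⟨⟨⟨⟨⟨⟨⟨⟨⟨a1, a2⟩, a3⟩, a4⟩, a5⟩, a6⟩, a7⟩, a8⟩, a9⟩, a10⟩, a11⟩, a12⟩, a13⟩, a14⟩, a15⟩ := h1
  obtain ⟨⟨⟨⟨⟨b1, b2⟩, b3⟩, b4⟩, b5⟩, b6⟩ := h2
  obtain ⟨⟨⟨⟨⟨⟨⟨⟨⟨d0, d1⟩, d2⟩, d3⟩, d4⟩, d5⟩, d6⟩, d7⟩, d8⟩, d9⟩ := h0
  interval_cases g
  · exact k0 _ d0
  · exact k1 1 0 1 (by decide) a1
  · exact k1 2 0 2 (by decide) a2
  · exact k1 3 0 3 (by decide) a3
  · exact k1 4 0 4 (by decide) a4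
  · exact k1 5 0 5 (by decide) a5
  · exact k1 6 1 2 (by decide) a6
  · exact k1 7 1 3 (by decide) a7
  · exact k1 8 1 4 (by decide) a8
  · exact k1 9 1 5 (by decide) a9
  · exact k1 10 2 3 (by decide) a10
  · exact k1 11 2 4 (by decide) a11
  · exact k1 12 2 5 (by decide) a12
  · exact k1 13 3 4 (by decide) a13
  · exact k1 14 3 5 (by decide) a14
  · exact k1 15 4 5 (by decide) a15
  · exact k2 16 0 1 b1
  · exact k2 17 0 2 b2
  · exact k2 18 0 3 b3
  · exact k2 19 1 2 b4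
  · exact k2 20 1 3 b5
  · exact k2 21 2 3 b6
  · exact k3 22 c3
  · exact k0 _ d1
  · exact k0 _ d2
  · exact k0 _ d3
  · exact k0 _ d4
  · exact k0 _ d5
  · exact k0 _ d6
  · exact k0 _ d7
  · exact k0 _ d8
  · exact k0 _ d9

theorem V_pull (g : Nat) (hg : g < 32) (P : Nat → Prop) (hP : V P) :
    V (fun o => o < 720 ∧ P (A1 g o)) := (all g hg).1 P hP

theorem A1_lt (g : Nat) (hg : g < 32) (o : Nat) (ho : o < 720) : A1 g o < 720 :=
  (all g hg).2 o ho

end Pool.Agent.W599.SCD
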